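import Pool.Agent.J4H20.TP.Stm

set_option autoImplicit false

/-! # Project TP: (T3P) the choice of `s` modulo `q` -/

namespace Pool.Agent.J4H17.TP

open Polynomial Pool.Agent.J4H20.TP

/-- a nontrivial `p`-th root of unity modulo `q` -/
theorem exists_root {p q : ℕ} (hp : p.Prime) [Fact q.Prime] (h : p ∣ q - 1) :
    ∃ z : ZMod q, z ^ p = 1 ∧ z ^ (p - 1) ≠ 1 := by
  haveI : Fact p.Prime := ⟨hp⟩
  have hc : p ∣ Fintype.card (ZMod q)ˣ := by rw [ZMod.card_units q]; exact h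
  obtain ⟨u, hu⟩ := exists_prime_orderOf_dvd_card p hc
  have h1 : u ^ p = 1 := by rw [← hu]; exact pow_orderOf_eq_one u
  refine ⟨(u : ZMod q), by rw [← Units.val_pow_eq_pow_val, h1, Units.val_one], ?_⟩
  intro h2
  have h3 : u ^ (p - 1) = 1 := by
    apply Units.ext
    rw [Units.val_pow_eq_pow_val, h2, Units.val_one]
  have h4 := orderOf_dvd_of_pow_eq_one h3
  rw [hu] at h4
  have h5 := Nat.le_of_dvd (by have := hp.two_le; omega) h4
  have := hp.two_le
  omega

theorem t_T3P : S_T3P := by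
  intro p e k D
  classical
  refine ⟨0, fun q hq x _ hpq _ hF0 hsq => ?_⟩
  have hp := D.hp
  have hp2 := hp.two_le
  set F' : ℤ := (derivative (∏ i, (X - C (D.a i)))).eval x with hF'
  have hFe : F' = (derivative (D.g ^ p + D.r)).eval x := by
    rw [hF', D.hf]
  have hfe : ∏ j, (x - D.a j) = (D.g ^ p + D.r).eval x := by
    have h1 := congrArg (fun p : ℤ[X] => p.eval x) D.hf
    simpa [eval_prod] using h1
  obtain ⟨y₀, hy⟩ := hsq
  set G : ZMod q := ((D.g.eval x : ℤ) : ZMod q) with hG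
  set G' : ZMod q := (((derivative D.g).eval x : ℤ) : ZMod q) with hG'
  have h1 : y₀ ^ p = (((D.g ^ p + D.r).eval x : ℤ) : ZMod q) := by
    rw [← hy, ← hfe]
    push_cast
    rfl
  obtain ⟨z, hz1, hz2⟩ := exists_root hp hpq
  obtain ⟨y, he1, he2⟩ : ∃ y : ZMod q, y ^ p = y₀ ^ p ∧ (p : ZMod q) * y ^ (p - 1) * G' - ((F' : ℤ) : ZMod q) ≠ 0 := by
    by_cases h : (p : ZMod q) * y₀ ^ (p - 1) * G' = ((F' : ℤ) : ZMod q)
    · refine ⟨z * y₀, by rw [mul_pow, hz1, one_mul], ?_⟩
      have e1 : (p : ZMod q) * (z * y₀) ^ (p - 1) * G' - ((F' : ℤ) : ZMod q) = (z ^ (p - 1) - 1) * ((F' : ℤ) : ZMod q) := by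
        rw [← h, mul_pow]
        ring
      rw [e1]
      exact mul_ne_zero (sub_ne_zero.2 hz2) hF0
    · exact ⟨y₀, rfl, sub_ne_zero.2 h⟩
  refine ⟨y - G, fun c M hM hc => ?_⟩
  have hM0 : ((M : ℤ) : ZMod q) ≠ 0 := by
    intro h
    exact hM ((ZMod.intCast_zmod_eq_zero_iff_dvd _ _).1 h)
  have e0 : (M : ZMod q) * G + (c : ZMod q) = (M : ZMod q) * y := by
    rw [hc]; ring
  constructor
  · rw [← ZMod.intCast_zmod_eq_zero_iff_dvd]
    have e2 : (HP p D.g D.r c M).eval x = (M * D.g.eval x + c) ^ p - M ^ p * (D.g ^ p + D.r).eval x := by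
      unfold HP
      rw [eval_sub, eval_pow, eval_add, eval_mul, eval_C, eval_C, eval_mul, eval_C]
    rw [e2]
    push_cast
    rw [← hG, e0, ← h1, ← he1, mul_pow, sub_self]
  · rw [← ZMod.intCast_zmod_eq_zero_iff_dvd]
    have e2 : (derivative (HP p D.g D.r c M)).eval x = p * (M * D.g.eval x + c) ^ (p - 1) *
        (M * (derivative D.g).eval x) - M ^ p * (derivative (D.g ^ p + D.r)).eval x := by
      unfold HP
      rw [derivative_sub, derivative_pow, derivative_add, derivative_C_mul, derivative_C, add_zero,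
        derivative_C_mul, eval_sub, eval_mul, eval_mul, eval_mul, eval_mul, eval_pow, eval_add, eval_mul,
        eval_C, eval_C, eval_C, eval_C]
    rw [e2, ← hFe]
    push_cast
    rw [← hG, ← hG', e0]
    have e3 : (p : ZMod q) * ((M : ZMod q) * y) ^ (p - 1) * ((M : ZMod q) * G') - (M : ZMod q) ^ p * ((F' : ℤ) : ZMod q) =
        (M : ZMod q) ^ p * ((p : ZMod q) * y ^ (p - 1) * G' - ((F' : ℤ) : ZMod q)) := by
      have : (M : ZMod q) ^ p = (M : ZMod q) ^ (p - 1) * (M : ZMod q) := by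
        rw [← pow_succ]; congr 1; omega
      rw [this, mul_pow]
      ring
    rw [e3]
    exact mul_ne_zero (pow_ne_zero _ hM0) he2

end Pool.Agent.J4H17.TP
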